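import Pool.Agent.W2helper55.HLM.Fj

/-!
# MP_667be6_lc: under `V = L`, `HL (d, σ, κ)` fails at every uncountable `κ` at which it is not
vacuous, in particular at all inaccessible cardinals
-/

open Cardinal

namespace Pool.Agent.Results.MP_667be6_lc.AllInaccessiblesInL

open Pool.Agent.H348R6.HLT

/-- Assume the axiom of constructibility (every set of the universe `ZFSet.{0}` is in some level
`L_α` of the constructible hierarchy). Let `κ` be an uncountable cardinal, and let `d ≥ 2` and
`σ ≥ ℵ₀`, or `d ≥ 3` and `σ ≥ 2`.  Then `HL (d, σ, κ)` fails if and only if there is a regular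
`κ`-tree, that is, if and only if it is not vacuous; and this is the case if and only if `κ` is
singular or inaccessible. -/
theorem result (hV : Pool.Agent.R587.VL) (κ : Cardinal.{0}) (hκ : ℵ₀ < κ) (d : ℕ)
    (σ : Cardinal.{0}) (h : (2 ≤ d ∧ ℵ₀ ≤ σ) ∨ (3 ≤ d ∧ 2 ≤ σ)) :
    (¬ HL d σ κ ↔ ∃ T : Set Node.{0}, IsRegularTree κ T) ∧
    (¬ HL d σ κ ↔ (κ.IsRegular → κ.IsInaccessible)) :=
  Pool.Agent.W2helper55.HLM.main' hV κ hκ d σ h

end Pool.Agent.Results.MP_667be6_lc.AllInaccessiblesInL
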