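import Pool.Agent.W2helper55.HL.Exist

/-!
# MP_667be6_lc: `HL (d, σ, κ)` fails at the inaccessible cardinals which are not Mahlo, under the
continuum hypothesis at singular strong limit cardinals

Let `κ` be an inaccessible cardinal which is not Mahlo (for instance the least inaccessible
cardinal) and assume that `2 ^ l = l⁺` for all sufficiently large singular strong limit cardinals
`l < κ`.  Then `HL (d, σ, κ)` fails for all `d ≥ 2`, `σ ≥ ℵ₀` and for all `d ≥ 3`, `σ ≥ 2`.
-/

universe u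

open Cardinal Ordinal Set

namespace Pool.Agent.Results.MP_667be6_lc.NonMahloInaccessibles

open Pool.Agent.H348R6.HLT Pool.Agent.W2helper55.HL

/-- Let `κ` be inaccessible and not Mahlo, and let `θ < κ` be such that `2 ^ l = l⁺` for all
singular strong limit cardinals `l` with `θ < l < κ`.  Then `HL (d, σ, κ)` fails for all `d ≥ 2`
and `σ ≥ ℵ₀`, and for all `d ≥ 3` and `σ ≥ 2`. -/
theorem result (κ θ : Cardinal.{u}) (hκ : κ.IsInaccessible) (hM : ¬ IsMahlo κ) (hθ : θ < κ)
    (hS : ∀ l, θ < l → l < κ → l.IsStrongLimit → ¬ l.IsRegular →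
      (2 : Cardinal.{u}) ^ l = Order.succ l) (d : ℕ) (σ : Cardinal.{u})
    (h : (2 ≤ d ∧ ℵ₀ ≤ σ) ∨ (3 ≤ d ∧ 2 ≤ σ)) : ¬ HL d σ κ := by
  obtain ⟨μ, hμ⟩ := exists_data hκ hM hθ
  rcases h with h | h
  · exact hμ.not_HL_two hκ hS h.1 h.2
  · exact hμ.not_HL_three hκ hS h.1 h.2

end Pool.Agent.Results.MP_667be6_lc.NonMahloInaccessibles
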